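import Pool.Agent.W829.RP.Defs

set_option autoImplicit false

open MeasureTheory Set Module
open scoped ENNReal

namespace Pool.Agent.W696.RP

open Pool.Agent.W829.RP

theorem wet_zero {V : Type} [NormedAddCommGroup V] [NormedSpace ℝ V] [MeasureSpace V]
    (K : Set V) : wet K 0 = ∅ := by
  ext x
  simp [wet]

theorem wet_mono {V : Type} [NormedAddCommGroup V] [NormedSpace ℝ V] [MeasureSpace V]
    (K : Set V) {s t : ℝ≥0∞} (h : s ≤ t) : wet K s ⊆ wet K t :=
  fun _ hx => ⟨hx.1, hx.2.trans_le h⟩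

theorem wet_sub {V : Type} [NormedAddCommGroup V] [NormedSpace ℝ V] [MeasureSpace V]
    (K : Set V) (s : ℝ≥0∞) : wet K s ⊆ K := fun _ hx => hx.1

theorem single (hFU : S_FU) (hFL : S_FL) {k : ℕ} (hk : 1 ≤ k) (K L : Set (E k))
    (hK : PosCurved K) (hL : PosCurved L) : ∃ A : ℝ, 0 < A ∧ ∀ r : ℝ, 1 ≤ r → ∀ s : ℝ≥0∞,
      volume (wet K (ENNReal.ofReal r * s)) ≤
        ENNReal.ofReal (A * r ^ (2 / ((k : ℝ) + 1))) * volume (wet L s) := by
  obtain ⟨C, hC, h1⟩ := hFU k K hK.1 hk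
  obtain ⟨c, s0, hc, hs0, h2⟩ := hFL k L hL hk
  set b : ℝ := 2 / ((k : ℝ) + 1) with hb
  have hb0 : 0 < b := by positivity
  have hKf : volume K < ⊤ := hK.1.2.1.measure_lt_top
  set v : ℝ := (volume K).toReal with hv
  have hv0 : 0 ≤ v := ENNReal.toReal_nonneg
  have hKv : volume K = ENNReal.ofReal v := (ENNReal.ofReal_toReal hKf.ne).symm
  set g0 : ℝ := c * s0 ^ b with hg0
  have hg0' : 0 < g0 := by positivity
  refine ⟨C / c + v / g0, by positivity, fun r hr s => ?_⟩
  have hrb : 1 ≤ r ^ b := Real.one_le_rpow hr hb0.le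
  have hr0 : 0 < r := by linarith
  rcases eq_or_ne s 0 with rfl | hs
  · simp [wet_zero]
  by_cases hs1 : s ≤ ENNReal.ofReal s0
  · have hst : s ≠ ⊤ := ne_top_of_le_ne_top ENNReal.ofReal_ne_top hs1
    set s' : ℝ := s.toReal with hs'
    have hs'0 : 0 < s' := ENNReal.toReal_pos hs hst
    have hs's : s = ENNReal.ofReal s' := (ENNReal.ofReal_toReal hst).symm
    have hs'1 : s' ≤ s0 := by
      rw [hs's] at hs1
      exact (ENNReal.ofReal_le_ofReal_iff hs0.le).1 hs1
    have e1 : ENNReal.ofReal r * s = ENNReal.ofReal (r * s') := by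
      rw [hs's, ← ENNReal.ofReal_mul hr0.le]
    rw [e1]
    refine (h1 _ (by positivity)).trans ?_
    have h3 := h2 s' hs'0 hs'1
    rw [← hs's] at h3
    refine le_trans ?_ (mul_le_mul_right h3 _)
    rw [← ENNReal.ofReal_mul (by positivity)]
    apply ENNReal.ofReal_le_ofReal
    rw [Real.mul_rpow hr0.le hs'0.le]
    have e2 : C * (r ^ b * s' ^ b) = (C / c) * r ^ b * (c * s' ^ b) := by
      field_simp
    rw [e2]
    have h5 : 0 ≤ v / g0 := by positivity
    have h6 : 0 ≤ r ^ b := by positivity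
    have h7 : 0 ≤ c * s' ^ b := by positivity
    exact mul_le_mul_of_nonneg_right (mul_le_mul_of_nonneg_right (by linarith) h6) h7
  · have hs2 : ENNReal.ofReal s0 ≤ s := (not_le.1 hs1).le
    refine (measure_mono (wet_sub _ _)).trans ?_
    have h3 := (h2 s0 hs0 le_rfl).trans (measure_mono (wet_mono L hs2))
    refine le_trans ?_ (mul_le_mul_right h3 _)
    rw [hKv, ← ENNReal.ofReal_mul (by positivity)]
    apply ENNReal.ofReal_le_ofReal
    have e2 : v = v / g0 * 1 * g0 := by field_simp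
    have h5 : 0 ≤ C / c := by positivity
    have h6 : 0 ≤ v / g0 := by positivity
    calc v = v / g0 * 1 * g0 := e2
      _ ≤ (C / c + v / g0) * r ^ b * g0 := by
        apply mul_le_mul_of_nonneg_right _ hg0'.le
        exact mul_le_mul (by linarith) hrb (by norm_num) (by positivity)

theorem vf_lt_top {V : Type} [NormedAddCommGroup V] [NormedSpace ℝ V] [MeasureSpace V]
    (K : Set V) (hK : volume K < ⊤) (x : V) : vf K x < ⊤ := by
  refine lt_of_le_of_lt (iInf_le _ (0 : V →L[ℝ] ℝ)) (lt_of_le_of_lt (measure_mono ?_) hK)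
  intro y hy
  exact hy.1

/-- the distribution function of the product of the functions `vf` -/
noncomputable def Phi {m : ℕ} {d : Fin m → ℕ} (K : ∀ i, Set (E (d i))) (t : ℝ≥0∞) : ℝ≥0∞ :=
  Measure.pi (fun i => (volume : Measure (E (d i))).restrict (K i))
    {x | ∏ i, vf (K i) (x i) < t}

theorem Phi_eq {m : ℕ} {d : Fin m → ℕ} (K : ∀ i, Set (E (d i))) (hK : ∀ i, IsBody (K i))
    (t : ℝ≥0∞) : Phi K t = volume ({x : ∀ i, E (d i) | ∏ i, vf (K i) (x i) < t} ∩
      Set.pi univ K) := by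
  unfold Phi
  have hm : MeasurableSet (Set.pi univ K) :=
    MeasurableSet.univ_pi fun i => (hK i).2.1.measurableSet
  have : Measure.pi (fun i => (volume : Measure (E (d i))).restrict (K i)) =
      (volume : Measure (∀ i, E (d i))).restrict (Set.pi univ K) := by
    rw [volume_pi, Measure.restrict_pi_pi]
  rw [this, Measure.restrict_apply' hm]

theorem Phi_scale (hVM : S_VM) (hPM : S_PM) (hFU : S_FU) (hFL : S_FL) {m : ℕ} (d : Fin m → ℕ)
    (hm : 1 ≤ m) (hd : ∀ i, 1 ≤ d i) (K L : ∀ i, Set (E (d i))) (hK : ∀ i, PosCurved (K i))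
    (hL : ∀ i, PosCurved (L i)) : ∃ A b : ℝ, 0 < A ∧ 0 < b ∧ ∀ r : ℝ, 1 ≤ r → ∀ t : ℝ≥0∞,
      Phi K (ENNReal.ofReal r * t) ≤ ENNReal.ofReal (A * r ^ b) * Phi L t := by
  classical
  have hs := fun i => single hFU hFL (hd i) (K i) (L i) (hK i) (hL i)
  choose A hA hs using hs
  set i0 : Fin m := ⟨0, by omega⟩ with hi0
  refine ⟨∏ i, A i, 2 / ((d i0 : ℝ) + 1), Finset.prod_pos fun i _ => hA i, by positivity,
    fun r hr t => ?_⟩
  have hr0 : 0 < r := by linarith
  set b : ℝ := 2 / ((d i0 : ℝ) + 1) with hb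
  have hR0 : ENNReal.ofReal r ≠ 0 := by simpa using hr0
  have hRt : ENNReal.ofReal r ≠ ⊤ := ENNReal.ofReal_ne_top
  have hrb : 0 < r ^ b := by positivity
  have fin1 : ∀ i, IsFiniteMeasure ((volume : Measure (E (d i))).restrict (K i)) := fun i =>
    ⟨by rw [Measure.restrict_apply_univ]; exact (hK i).1.2.1.measure_lt_top⟩
  have fin2 : ∀ i, IsFiniteMeasure ((volume : Measure (E (d i))).restrict (L i)) := fun i =>
    ⟨by rw [Measure.restrict_apply_univ]; exact (hL i).1.2.1.measure_lt_top⟩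
  have mK : ∀ i, Measurable (vf (K i)) := fun i => hVM (E (d i)) (K i) (hK i).1
  have mL : ∀ i, Measurable (vf (L i)) := fun i => hVM (E (d i)) (L i) (hL i).1
  have restr : ∀ (i : Fin m) (M : Set (E (d i))) (s : ℝ≥0∞), IsBody M →
      (volume.restrict M) {x | vf M x < s} = volume (wet M s) := by
    intro i M s hM
    rw [Measure.restrict_apply' hM.2.1.measurableSet]
    congr 1
    ext x
    simp only [wet, mem_inter_iff, mem_ofPred_eq]
    tauto
  -- the scaled family
  set ρ : Fin m → ℝ≥0∞ := fun i => if i = i0 then (ENNReal.ofReal r)⁻¹ else 1 with hρ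
  set α : Fin m → ℝ≥0∞ := fun i =>
    ENNReal.ofReal (A i) * (if i = i0 then ENNReal.ofReal (r ^ b) else 1) with hα
  have hρt : ∀ i, ρ i ≠ ⊤ := by
    intro i
    simp only [hρ]
    split_ifs
    · exact ENNReal.inv_ne_top.2 hR0
    · exact ENNReal.one_ne_top
  have hpm := hPM m (fun i => E (d i)) (fun i => E (d i))
    (fun i => (volume : Measure (E (d i))).restrict (K i))
    (fun i => (volume : Measure (E (d i))).restrict (L i))
    (fun i x => ρ i * vf (K i) x) (fun i => vf (L i)) α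
    (fun i => (mK i).const_mul _) mL
    (fun i x => ENNReal.mul_lt_top (hρt i).lt_top (vf_lt_top _ (hK i).1.2.1.measure_lt_top x))
    (fun i x => vf_lt_top _ (hL i).1.2.1.measure_lt_top x)
    (by
      intro i
      simp only [hα]
      split_ifs
      · exact ENNReal.mul_lt_top ENNReal.ofReal_lt_top ENNReal.ofReal_lt_top
      · exact ENNReal.mul_lt_top ENNReal.ofReal_lt_top ENNReal.one_lt_top)
    (by
      intro i s
      rw [restr i (L i) s (hL i).1]
      by_cases hi : i = i0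
      · have e1 : {x : E (d i) | ρ i * vf (K i) x < s} =
            {x | vf (K i) x < ENNReal.ofReal r * s} := by
          ext x
          simp only [hρ, if_pos hi, mem_ofPred_eq]
          rw [mul_comm, ← div_eq_mul_inv, ENNReal.div_lt_iff (Or.inl hR0) (Or.inl hRt), mul_comm]
        rw [e1, restr i (K i) _ (hK i).1]
        have h1 := hs i r hr s
        have e2 : α i = ENNReal.ofReal (A i * r ^ (2 / ((d i : ℝ) + 1))) := by
          rw [ENNReal.ofReal_mul (hA i).le]
          simp only [hα, if_pos hi]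
          subst hi
          rfl
        rw [e2]
        exact h1
      · have e1 : {x : E (d i) | ρ i * vf (K i) x < s} = {x | vf (K i) x < s} := by
          ext x
          simp only [hρ, if_neg hi, mem_ofPred_eq, one_mul]
        rw [e1, restr i (K i) _ (hK i).1]
        have h1 := hs i 1 le_rfl s
        rw [ENNReal.ofReal_one, one_mul, Real.one_rpow, mul_one] at h1
        simp only [hα, if_neg hi, mul_one]
        exact h1) t
  have hprod : ∀ x : ∀ i, E (d i), ∏ i, ρ i * vf (K i) (x i) =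
      (ENNReal.ofReal r)⁻¹ * ∏ i, vf (K i) (x i) := by
    intro x
    rw [Finset.prod_mul_distrib]
    congr 1
    simp only [hρ]
    rw [Finset.prod_ite_eq']
    simp
  have hset : {x : ∀ i, E (d i) | ∏ i, ρ i * vf (K i) (x i) < t} =
      {x | ∏ i, vf (K i) (x i) < ENNReal.ofReal r * t} := by
    ext x
    simp only [mem_ofPred_eq]
    rw [hprod, mul_comm, ← div_eq_mul_inv, ENNReal.div_lt_iff (Or.inl hR0) (Or.inl hRt), mul_comm]
  have hαp : ∏ i, α i = ENNReal.ofReal ((∏ i, A i) * r ^ b) := by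
    simp only [hα]
    rw [Finset.prod_mul_distrib, Finset.prod_ite_eq', ENNReal.ofReal_mul
      (Finset.prod_nonneg fun i _ => (hA i).le), ENNReal.ofReal_prod_of_nonneg
      (fun i _ => (hA i).le)]
    simp
  rw [hset, hαp] at hpm
  exact hpm

theorem wet_scale (hVM : S_VM) (hPV : S_PV) (hPM : S_PM) (hFU : S_FU) (hFL : S_FL) {m : ℕ}
    (d : Fin m → ℕ) (hm : 1 ≤ m) (hd : ∀ i, 1 ≤ d i) (K L : ∀ i, Set (E (d i)))
    (hK : ∀ i, PosCurved (K i)) (hL : ∀ i, PosCurved (L i)) :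
    ∃ A b : ℝ, 0 < A ∧ 0 < b ∧ ∀ r : ℝ, 1 ≤ r → ∀ t : ℝ≥0∞,
      volume (wet (Set.pi univ K) (ENNReal.ofReal r * t)) ≤
        ENNReal.ofReal (A * r ^ b) * volume (wet (Set.pi univ L) t) := by
  obtain ⟨A, b, hA, hb, hΦ⟩ := Phi_scale hVM hPM hFU hFL d hm hd K L hK hL
  set B : ℝ := (m : ℝ) ^ (∑ i, d i) with hB
  have hB1 : 1 ≤ B := one_le_pow₀ (by exact_mod_cast hm)
  have hB0 : 0 < B := by linarith
  have hb0 : ENNReal.ofReal B ≠ 0 := by simpa using hB0
  have hbt : ENNReal.ofReal B ≠ ⊤ := ENNReal.ofReal_ne_top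
  have u1 : ∀ t : ℝ≥0∞, volume (wet (Set.pi univ K) t) ≤ Phi K (ENNReal.ofReal B * t) := by
    intro t
    rw [Phi_eq K fun i => (hK i).1]
    refine measure_mono fun x hx => ⟨?_, hx.1⟩
    have h1 := (hPV m d hm hd K (fun i => (hK i).1) x hx.1).2
    exact lt_of_le_of_lt h1 ((ENNReal.mul_lt_mul_iff_right hb0 hbt).2 hx.2)
  have u2 : ∀ t : ℝ≥0∞, Phi L t ≤ volume (wet (Set.pi univ L) (ENNReal.ofReal B * t)) := by
    intro t
    rw [Phi_eq L fun i => (hL i).1]
    refine measure_mono fun x hx => ⟨hx.2, ?_⟩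
    have h1 := (hPV m d hm hd L (fun i => (hL i).1) x hx.2).1
    exact lt_of_le_of_lt h1 ((ENNReal.mul_lt_mul_iff_right hb0 hbt).2 hx.1)
  refine ⟨A * (B ^ 2) ^ b, b, by positivity, hb, fun r hr t => ?_⟩
  have hr0 : 0 < r := by linarith
  have hBB : ENNReal.ofReal B * (ENNReal.ofReal B)⁻¹ = 1 := ENNReal.mul_inv_cancel hb0 hbt
  have e1 : ENNReal.ofReal B * (ENNReal.ofReal r * t) =
      ENNReal.ofReal (B ^ 2 * r) * ((ENNReal.ofReal B)⁻¹ * t) := by
    rw [ENNReal.ofReal_mul (by positivity), pow_two, ENNReal.ofReal_mul hB0.le]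
    calc ENNReal.ofReal B * (ENNReal.ofReal r * t)
        = 1 * (ENNReal.ofReal B * (ENNReal.ofReal r * t)) := by rw [one_mul]
      _ = (ENNReal.ofReal B * (ENNReal.ofReal B)⁻¹) *
          (ENNReal.ofReal B * (ENNReal.ofReal r * t)) := by rw [hBB]
      _ = _ := by ring
  have e2 : ENNReal.ofReal B * ((ENNReal.ofReal B)⁻¹ * t) = t := by
    rw [← mul_assoc, hBB, one_mul]
  calc volume (wet (Set.pi univ K) (ENNReal.ofReal r * t))
      ≤ Phi K (ENNReal.ofReal B * (ENNReal.ofReal r * t)) := u1 _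
    _ = Phi K (ENNReal.ofReal (B ^ 2 * r) * ((ENNReal.ofReal B)⁻¹ * t)) := by rw [e1]
    _ ≤ ENNReal.ofReal (A * (B ^ 2 * r) ^ b) * Phi L ((ENNReal.ofReal B)⁻¹ * t) :=
      hΦ _ (by nlinarith) _
    _ ≤ ENNReal.ofReal (A * (B ^ 2 * r) ^ b) * volume (wet (Set.pi univ L) t) := by
      refine mul_le_mul_right ?_ _
      have := u2 ((ENNReal.ofReal B)⁻¹ * t)
      rwa [e2] at this
    _ = ENNReal.ofReal (A * (B ^ 2) ^ b * r ^ b) * volume (wet (Set.pi univ L) t) := by
      rw [Real.mul_rpow (by positivity) hr0.le, mul_assoc]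

theorem cmp (hVM : S_VM) (hPV : S_PV) (hPM : S_PM) (_hPB : S_PB) (hFU : S_FU) (hFL : S_FL) :
    S_CMP := by
  intro m d hm hd K L hK hL
  constructor
  · obtain ⟨A, b, hA, hb, h⟩ := wet_scale hVM hPV hPM hFU hFL d hm hd K K hK hK
    refine ⟨A, b, hA, hb, fun t r ht hr => ?_⟩
    have := h r hr (ENNReal.ofReal t)
    rwa [← ENNReal.ofReal_mul (by linarith)] at this
  · obtain ⟨A, b, hA, hb, h⟩ := wet_scale hVM hPV hPM hFU hFL d hm hd K L hK hL
    refine ⟨A, hA, fun t ht => ?_⟩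
    have := h 1 le_rfl (ENNReal.ofReal t)
    rwa [ENNReal.ofReal_one, one_mul, Real.one_rpow, mul_one] at this

end Pool.Agent.W696.RP
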