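import Pool.Agent.W829.RP.Defs

set_option autoImplicit false

open MeasureTheory Set Module
open scoped ENNReal

namespace Pool.Agent.W696.RP

open Pool.Agent.W829.RP

section
variable {V : Type} [NormedAddCommGroup V] [NormedSpace ℝ V] [FiniteDimensional ℝ V]

/-- points of the hull on a supporting hyperplane -/
theorem mem_hull_face {n : ℕ} (ω : Fin n → V) (l : V →L[ℝ] ℝ) (s : ℝ)
    (hs : ∀ i, l (ω i) ≤ s) (x : V) (hx : x ∈ hull ω) (hl : l x = s) :
    x ∈ convexHull ℝ (ω '' {i | l (ω i) = s}) := by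
  classical
  unfold hull at hx
  rw [mem_convexHull_iff_exists_fintype] at hx
  obtain ⟨ι, _, w, z, hw0, hw1, hz, hx⟩ := hx
  have hzs : ∀ i, l (z i) ≤ s := by
    intro i
    obtain ⟨j, hj⟩ := hz i
    rw [← hj]
    exact hs j
  have h1 : ∑ i, w i * (s - l (z i)) = 0 := by
    have h2 : ∑ i, w i * (s - l (z i)) = s * ∑ i, w i - l (∑ i, w i • z i) := by
      rw [map_sum, Finset.mul_sum, ← Finset.sum_sub_distrib]
      refine Finset.sum_congr rfl fun i _ => ?_
      rw [map_smul, smul_eq_mul]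
      ring
    rw [h2, hw1, hx, hl]
    ring
  have h3 : ∀ i, w i * (s - l (z i)) = 0 := by
    intro i
    exact (Finset.sum_eq_zero_iff_of_nonneg (fun i _ => mul_nonneg (hw0 i)
      (sub_nonneg.2 (hzs i)))).1 h1 i (Finset.mem_univ _)
  -- restrict to the indices of positive weight
  set J : Finset ι := Finset.univ.filter (fun i => w i ≠ 0) with hJ
  have h4 : ∑ i ∈ J, w i = 1 := by
    rw [← hw1]
    refine Finset.sum_subset (Finset.subset_univ _) fun i _ hi => ?_
    simpa [hJ] using hi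
  have h5 : ∑ i ∈ J, w i • z i = x := by
    rw [← hx]
    refine Finset.sum_subset (Finset.subset_univ _) fun i _ hi => ?_
    have : w i = 0 := by simpa [hJ] using hi
    rw [this, zero_smul]
  have h6 := J.centerMass_mem_convexHull (R := ℝ) (s := ω '' {i | l (ω i) = s}) (w := w) (z := z)
    (fun i _ => hw0 i) (by rw [h4]; norm_num) (fun i hi => by
      have hwi : w i ≠ 0 := by simpa [hJ] using hi
      have h7 : s - l (z i) = 0 := (mul_eq_zero.1 (h3 i)).resolve_left hwi
      obtain ⟨j, hj⟩ := hz i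
      refine ⟨j, ?_, hj⟩
      rw [mem_ofPred_eq, hj]
      linarith)
  rwa [Finset.centerMass_eq_of_sum_1 _ _ h4, h5] at h6

theorem face_data {n j : ℕ} (hj : j < finrank ℝ V) (hn : finrank ℝ V + 1 ≤ n) (ω : Fin n → V)
    (hG : GenPos ω) (F : Set V) (hF : F ∈ faces j (hull ω)) :
    ∃ σ ∈ supp j ω, F = hull ω ∩ (affineSpan ℝ (ω '' (σ : Set (Fin n))) : Set V) := by
  classical
  obtain ⟨hne, hexp, hdim⟩ := hF
  obtain ⟨l, hl⟩ := hexp hne
  obtain ⟨x0, hx0⟩ := hne
  have hx0' : x0 ∈ hull ω ∧ ∀ y ∈ hull ω, l y ≤ l x0 := by rw [hl] at hx0; exact hx0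
  set s := l x0 with hs
  have hFs : F = {x | x ∈ hull ω ∧ l x = s} := by
    rw [hl]
    ext x
    constructor
    · rintro ⟨h1, h2⟩
      exact ⟨h1, le_antisymm (hx0'.2 x h1) (h2 x0 hx0'.1)⟩
    · rintro ⟨h1, h2⟩
      exact ⟨h1, fun y hy => by rw [h2]; exact hx0'.2 y hy⟩
  have hω : ∀ i, ω i ∈ hull ω := fun i => subset_convexHull ℝ _ ⟨i, rfl⟩
  have hle : ∀ i, l (ω i) ≤ s := fun i => hx0'.2 _ (hω i)
  -- the functional is nonzero
  have hl0 : l ≠ 0 := by
    rintro rfl
    have hFP : F = hull ω := by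
      rw [hFs]
      ext x
      constructor
      · exact fun h => h.1
      · intro h
        refine ⟨h, ?_⟩
        simp [hs]
    set τ : Fin (finrank ℝ V + 1) ↪ Fin n := Fin.castLEEmb hn with hτ
    have h1 := (hG τ).finrank_vectorSpan (n := finrank ℝ V) (by simp)
    have h2 : vectorSpan ℝ (range (ω ∘ τ)) ≤ vectorSpan ℝ F := by
      rw [hFP]
      apply vectorSpan_mono
      rintro _ ⟨i, rfl⟩
      exact hω _
    have h3 := Submodule.finrank_mono h2
    omega
  -- the affine span
  set A : Set (Fin n) := {i | l (ω i) = s} with hA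
  have hAF : ω '' A ⊆ F := by
    rintro _ ⟨i, hi, rfl⟩
    rw [hFs]
    exact ⟨hω i, hi⟩
  have hFA : F ⊆ convexHull ℝ (ω '' A) := by
    intro x hx
    rw [hFs] at hx
    exact mem_hull_face ω l s hle x hx.1 hx.2
  have haff : affineSpan ℝ F = affineSpan ℝ (ω '' A) := by
    apply le_antisymm
    · refine (affineSpan_mono ℝ hFA).trans ?_
      rw [affineSpan_convexHull]
    · exact affineSpan_mono ℝ hAF
  obtain ⟨t, htA, hts, hti⟩ := exists_affineIndependent ℝ V (ω '' A)
  have hAne : (ω '' A).Nonempty := by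
    have : x0 ∈ convexHull ℝ (ω '' A) := hFA hx0
    exact convexHull_nonempty_iff.1 ⟨x0, this⟩
  have htf : t.Finite := (Set.toFinite A).image ω |>.subset htA
  have htne : t.Nonempty := by
    rw [← affineSpan_nonempty (k := ℝ), hts, affineSpan_nonempty]
    exact hAne
  have hdt : finrank ℝ (vectorSpan ℝ t) = j := by
    rw [← hdim, ← direction_affineSpan, ← direction_affineSpan, hts, haff]
  have htc : t.ncard = j + 1 := by
    have : Fintype t := htf.fintype
    have : Nonempty t := htne.to_subtype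
    have h1 := hti.finrank_vectorSpan_add_one
    rw [Subtype.range_coe, hdt] at h1
    rw [h1, Set.ncard_eq_toFinset_card', Set.toFinset_card]
  obtain ⟨σ', hσA, hσ⟩ := (show SurjOn ω A t from htA).exists_bijOn_subset
  have hσf : σ'.Finite := Set.toFinite σ'
  refine ⟨hσf.toFinset, ⟨?_, l, s, hl0, ?_, hle⟩, ?_⟩
  · rw [← Set.ncard_eq_toFinset_card _ hσf, ← htc, ← hσ.image_eq, Set.InjOn.ncard_image hσ.injOn]
  · intro i hi
    exact hσA ((Set.Finite.mem_toFinset hσf).1 hi)
  · have e : ω '' ((hσf.toFinset : Finset (Fin n)) : Set (Fin n)) = t := by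
      rw [Set.Finite.coe_toFinset, hσ.image_eq]
    rw [e]
    ext x
    constructor
    · intro hx
      refine ⟨?_, ?_⟩
      · rw [hFs] at hx; exact hx.1
      · rw [hts, ← haff]
        exact subset_affineSpan ℝ F hx
    · rintro ⟨h1, h2⟩
      rw [hFs]
      refine ⟨h1, ?_⟩
      refine affineSpan_induction (k := ℝ) (s := t) (p := fun x => l x = s) h2 ?_ ?_
      · intro y hy
        obtain ⟨i, hi, rfl⟩ := htA hy
        exact hi
      · intro c u v w hu hv hw
        simp only [vsub_eq_sub, vadd_eq_add, map_add, map_smul, map_sub, smul_eq_mul] at hu hv hw ⊢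
        rw [hu, hv, hw]
        ring

end

theorem fup : S_FUP := by
  intro V _ _ _ n j hj hn ω hG
  classical
  have h := fun (F : Set V) (hF : F ∈ faces j (hull ω)) => face_data hj hn ω hG F hF
  choose! σ hσ hFσ using h
  refine Set.encard_le_encard_of_injOn (f := σ) (fun F hF => hσ F hF) ?_
  intro F hF F' hF' he
  rw [hFσ F hF, hFσ F' hF', he]

end Pool.Agent.W696.RP
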